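import Pool.Agent.Helper40W.WP.Root54

set_option autoImplicit false

namespace Pool.Agent.Helper40W.WP

theorem exists_coeff (z : ℂ) (hz : z.im ≠ 0) : ∃ (L : ℕ) (β : ℕ → ℝ), 1 ≤ L ∧ (∀ i, 0 < β i) ∧
    ∑ i ∈ Finset.range L, ((β i : ℝ) : ℂ) * z ^ (i + 1) = 0 := by
  obtain ⟨K, hK, hneg⟩ := exists_pow_re_neg z hz
  have hw0 : z ^ K ≠ 0 := by
    intro h
    rw [h] at hneg
    simp at hneg
  have hquad : (z ^ K) ^ 2 + ((-2 * (z ^ K).re : ℝ) : ℂ) * z ^ K + ((Complex.normSq (z ^ K) : ℝ) : ℂ) = 0 := by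
    generalize z ^ K = w
    apply Complex.ext
    · simp [pow_two, Complex.normSq_apply]; ring
    · simp [pow_two, Complex.normSq_apply]; ring
  refine ⟨K + K + K, fun i => if i < K then Complex.normSq (z ^ K) else if i < K + K then -2 * (z ^ K).re else 1,
    by omega, ?_, ?_⟩
  · intro i
    beta_reduce
    split_ifs
    · exact Complex.normSq_pos.mpr hw0
    · linarith
    · norm_num
  · rw [Finset.sum_range_add, Finset.sum_range_add]
    have h1 : ∑ i ∈ Finset.range K, (((if i < K then Complex.normSq (z ^ K) else if i < K + K then -2 * (z ^ K).re else 1 : ℝ)) : ℂ) * z ^ (i + 1) =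
        ((Complex.normSq (z ^ K) : ℝ) : ℂ) * ∑ i ∈ Finset.range K, z ^ (i + 1) := by
      rw [Finset.mul_sum]
      apply Finset.sum_congr rfl
      intro i hi
      rw [if_pos (Finset.mem_range.mp hi)]
    have h2 : ∑ i ∈ Finset.range K, (((if K + i < K then Complex.normSq (z ^ K) else if K + i < K + K then -2 * (z ^ K).re else 1 : ℝ)) : ℂ) * z ^ (K + i + 1) =
        (((-2 * (z ^ K).re : ℝ) : ℂ) * z ^ K) * ∑ i ∈ Finset.range K, z ^ (i + 1) := by
      rw [Finset.mul_sum]
      apply Finset.sum_congr rfl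
      intro i hi
      have := Finset.mem_range.mp hi
      rw [if_neg (by omega), if_pos (by omega)]
      rw [mul_assoc, ← pow_add]
      congr 2
    have h3 : ∑ i ∈ Finset.range K, (((if K + K + i < K then Complex.normSq (z ^ K) else if K + K + i < K + K then -2 * (z ^ K).re else 1 : ℝ)) : ℂ) * z ^ (K + K + i + 1) =
        (z ^ K) ^ 2 * ∑ i ∈ Finset.range K, z ^ (i + 1) := by
      rw [Finset.mul_sum]
      apply Finset.sum_congr rfl
      intro i hi
      rw [if_neg (by omega), if_neg (by omega)]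
      rw [Complex.ofReal_one, one_mul, ← pow_mul, ← pow_add]
      congr 1
      ring
    rw [h1, h2, h3, ← add_mul, ← add_mul]
    have h4 : ((Complex.normSq (z ^ K) : ℝ) : ℂ) + ((-2 * (z ^ K).re : ℝ) : ℂ) * z ^ K + (z ^ K) ^ 2 = 0 := by
      rw [← hquad]; ring
    rw [h4, zero_mul]

end Pool.Agent.Helper40W.WP
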