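import Pool.Agent.Helper40W.WP.Glue

set_option autoImplicit false

open Polynomial

namespace Pool.Agent.Helper40W.WP

/-- twice the Wiener polynomial -/
noncomputable def wp {V : Type} [Fintype V] [DecidableEq V] (G : SimpleGraph V) : ℂ[X] :=
  ∑ p ∈ (Finset.univ : Finset V).offDiag, X ^ G.dist p.1 p.2

lemma wp_coeff {V : Type} [Fintype V] [DecidableEq V] (G : SimpleGraph V) (k : ℕ) :
    (wp G).coeff k =
      (((Finset.univ : Finset V).offDiag.filter (fun p => k = G.dist p.1 p.2)).card : ℂ) := by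
  rw [wp, finset_sum_coeff]
  simp only [coeff_X_pow]
  rw [Finset.sum_boole]

lemma wp_natDegree_le {V : Type} [Fintype V] [DecidableEq V] (G : SimpleGraph V) (D : ℕ)
    (hD : ∀ u v, G.dist u v ≤ D) : (wp G).natDegree ≤ D := by
  refine natDegree_sum_le_of_forall_le _ _ fun p _ => ?_
  rw [natDegree_X_pow]
  exact hD _ _

lemma wp_eval {V : Type} [Fintype V] [DecidableEq V] (G : SimpleGraph V) (z : ℂ) :
    (wp G).eval z = ∑ p ∈ (Finset.univ : Finset V).offDiag, z ^ G.dist p.1 p.2 := by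
  rw [wp, eval_finset_sum]
  simp

variable {S : Type} [Fintype S] [DecidableEq S] {par : S → Option S} {dep : S → ℕ}

/-- the cross pairs -/
def crossMap (m : ℕ) (q : (Fin m × Fin m) × (S × S)) :
    Option (Fin m × S) × Option (Fin m × S) :=
  (some (q.1.1, q.2.1), some (q.1.2, q.2.2))

lemma crossMap_inj (m : ℕ) : Function.Injective (crossMap (S := S) m) := by
  rintro ⟨⟨a, b⟩, ⟨c, d⟩⟩ ⟨⟨a', b'⟩, ⟨c', d'⟩⟩ h
  simp only [crossMap, Prod.mk.injEq, Option.some.injEq] at h
  obtain ⟨⟨rfl, rfl⟩, ⟨rfl, rfl⟩⟩ := h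
  rfl

lemma lead_count (hd : IsDepth par dep) (m L : ℕ) :
    (m * m - m) * ((Finset.univ.filter (fun s : S => dep s = L)).card *
      (Finset.univ.filter (fun s : S => dep s = L)).card) ≤
      ((Finset.univ : Finset (Option (Fin m × S))).offDiag.filter
        (fun p => 2 * L = (glue hd m).dist p.1 p.2)).card := by
  set A := Finset.univ.filter (fun s : S => dep s = L) with hA
  have h1 : ((Finset.univ : Finset (Fin m)).offDiag ×ˢ (A ×ˢ A)).card =
      (m * m - m) * (A.card * A.card) := by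
    rw [Finset.card_product, Finset.card_product, Finset.offDiag_card]
    simp
  rw [← h1]
  refine Finset.card_le_card_of_injOn (crossMap m) ?_ (crossMap_inj m).injOn
  rintro ⟨⟨c, c'⟩, ⟨s, s'⟩⟩ hq
  rw [Finset.mem_coe, Finset.mem_product, Finset.mem_product, Finset.mem_offDiag] at hq
  obtain ⟨⟨-, -, hc⟩, hs, hs'⟩ := hq
  simp only [hA, Finset.mem_filter, Finset.mem_univ, true_and] at hs hs'
  have hd' := dist_cross hd m hc s s'
  simp only [Finset.coe_filter, Finset.mem_offDiag, Finset.mem_univ, true_and, Set.mem_setOf_eq]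
  refine ⟨?_, ?_⟩
  · intro h
    simp only [crossMap, Option.some.injEq, Prod.mk.injEq] at h
    exact hc h.1
  · simp only [crossMap]
    rw [hd', hs, hs']; ring

lemma eval_bound (hd : IsDepth par dep) (m L : ℕ) (hL : ∀ s, dep s ≤ L) (z : ℂ) (R : ℝ)
    (hR : 1 ≤ R) (hz : ‖z‖ ≤ R) :
    ‖(wp (glue hd m)).eval z‖ ≤ ((m * m - m : ℕ) : ℝ) * ‖∑ s, z ^ dep s‖ ^ 2 +
      ((m * (Fintype.card S * (Fintype.card S + 1)) : ℕ) : ℝ) * R ^ (2 * L) := by
  classical
  set O := (Finset.univ : Finset (Option (Fin m × S))).offDiag with hO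
  set B := ((Finset.univ : Finset (Fin m)).offDiag ×ˢ (Finset.univ : Finset (S × S))) with hB
  set C := B.image (crossMap m) with hC
  have hCO : C ⊆ O := by
    intro p hp
    rw [hC, Finset.mem_image] at hp
    obtain ⟨⟨⟨c, c'⟩, ⟨s, s'⟩⟩, hq, rfl⟩ := hp
    rw [hB, Finset.mem_product, Finset.mem_offDiag] at hq
    rw [hO, Finset.mem_offDiag]
    refine ⟨Finset.mem_univ _, Finset.mem_univ _, fun h => ?_⟩
    simp only [crossMap, Option.some.injEq, Prod.mk.injEq] at h
    exact hq.1.2.2 h.1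
  have hcC : C.card = (m * m - m) * (Fintype.card S * Fintype.card S) := by
    rw [hC, Finset.card_image_of_injective _ (crossMap_inj m), hB, Finset.card_product,
      Finset.offDiag_card]
    simp
  have hcO : O.card = (m * Fintype.card S + 1) * (m * Fintype.card S + 1) -
      (m * Fintype.card S + 1) := by
    rw [hO, Finset.offDiag_card]
    simp
  have hrest : (O \ C).card = m * (Fintype.card S * (Fintype.card S + 1)) := by
    rw [Finset.card_sdiff_of_subset hCO, hcO, hcC]
    set K := Fintype.card S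
    have e1 : (m * K + 1) * (m * K + 1) - (m * K + 1) = m * K * (m * K + 1) := by
      rw [show (m * K + 1) * (m * K + 1) = m * K * (m * K + 1) + (m * K + 1) by ring,
        Nat.add_sub_cancel]
    rw [e1]
    rcases Nat.eq_zero_or_pos m with hm | hm
    · subst hm; simp
    · obtain ⟨n, rfl⟩ : ∃ n, m = n + 1 := ⟨m - 1, by omega⟩
      have e2 : (n + 1) * (n + 1) - (n + 1) = n * (n + 1) := by
        rw [show (n + 1) * (n + 1) = n * (n + 1) + (n + 1) by ring, Nat.add_sub_cancel]
      rw [e2]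
      apply Nat.sub_eq_of_eq_add
      ring
  have hsum : (wp (glue hd m)).eval z = (∑ p ∈ O \ C, z ^ (glue hd m).dist p.1 p.2) +
      ∑ p ∈ C, z ^ (glue hd m).dist p.1 p.2 := by
    rw [wp_eval, Finset.sum_sdiff hCO]
  have hC2 : ∑ p ∈ C, z ^ (glue hd m).dist p.1 p.2 =
      ((m * m - m : ℕ) : ℂ) * (∑ s, z ^ dep s) ^ 2 := by
    rw [hC, Finset.sum_image (crossMap_inj m).injOn, hB, Finset.sum_product]
    have : ∀ c ∈ (Finset.univ : Finset (Fin m)).offDiag,
        ∑ q : S × S, z ^ (glue hd m).dist (crossMap m (c, q)).1 (crossMap m (c, q)).2 =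
          (∑ s, z ^ dep s) ^ 2 := by
      rintro ⟨c, c'⟩ hc
      rw [Finset.mem_offDiag] at hc
      rw [Fintype.sum_prod_type, pow_two, Finset.sum_mul_sum]
      refine Finset.sum_congr rfl fun s _ => Finset.sum_congr rfl fun s' _ => ?_
      simp only [crossMap]
      rw [dist_cross hd m hc.2.2, pow_add]
    rw [Finset.sum_congr rfl this, Finset.sum_const, Finset.offDiag_card]
    simp
  rw [hsum, hC2, add_comm]
  refine (norm_add_le _ _).trans (add_le_add ?_ ?_)
  · rw [norm_mul, norm_pow, Complex.norm_natCast]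
  · refine (norm_sum_le _ _).trans ?_
    rw [← hrest, ← nsmul_eq_mul]
    refine Finset.sum_le_card_nsmul _ _ _ fun p _ => ?_
    rw [norm_pow]
    calc ‖z‖ ^ (glue hd m).dist p.1 p.2 ≤ R ^ (glue hd m).dist p.1 p.2 :=
          pow_le_pow_left₀ (norm_nonneg _) hz _
      _ ≤ R ^ (2 * L) := pow_le_pow_right₀ hR (dist_le hd m L hL _ _)

end Pool.Agent.Helper40W.WP
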