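import Mathlib

set_option autoImplicit false

open Polynomial

namespace Pool.Agent.Helper40W.WP

/-- The graph of a parent function. -/
def parentGraph {V : Type} (r : V) (p : V → V) (dep : V → ℕ)
    (h : ∀ v, v ≠ r → dep (p v) + 1 = dep v) : SimpleGraph V where
  Adj u v := (u ≠ r ∧ p u = v) ∨ (v ≠ r ∧ p v = u)
  symm := ⟨fun u v h => h.symm⟩
  loopless := ⟨fun v hv => by
    rcases hv with ⟨h1, h2⟩ | ⟨h1, h2⟩ <;>
    · have := h v h1
      rw [h2] at this
      omega⟩

lemma adj_iff {V : Type} (r : V) (p : V → V) (dep : V → ℕ)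
    (h : ∀ v, v ≠ r → dep (p v) + 1 = dep v) (u v : V) :
    (parentGraph r p dep h).Adj u v ↔ (u ≠ r ∧ p u = v) ∨ (v ≠ r ∧ p v = u) := Iff.rfl

lemma walk_root {V : Type} (r : V) (p : V → V) (dep : V → ℕ)
    (h : ∀ v, v ≠ r → dep (p v) + 1 = dep v) :
    ∀ (n : ℕ) (v : V), dep v ≤ n → ∃ w : (parentGraph r p dep h).Walk v r, w.length ≤ dep v := by
  intro n
  induction n with
  | zero =>
    intro v hv
    by_cases hr : v = r
    · subst hr; exact ⟨SimpleGraph.Walk.nil, by simp⟩
    · have := h v hr; omega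
  | succ n ih =>
    intro v hv
    by_cases hr : v = r
    · subst hr; exact ⟨SimpleGraph.Walk.nil, by simp⟩
    · have h1 := h v hr
      obtain ⟨w, hw⟩ := ih (p v) (by omega)
      refine ⟨SimpleGraph.Walk.cons ((adj_iff r p dep h v (p v)).2 (Or.inl ⟨hr, rfl⟩)) w, ?_⟩
      rw [SimpleGraph.Walk.length_cons]; omega

lemma dist_root {V : Type} (r : V) (p : V → V) (dep : V → ℕ)
    (h : ∀ v, v ≠ r → dep (p v) + 1 = dep v) (v : V) :
    (parentGraph r p dep h).dist v r ≤ dep v := by
  obtain ⟨w, hw⟩ := walk_root r p dep h _ v le_rfl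
  exact (SimpleGraph.dist_le w).trans hw

lemma conn {V : Type} (r : V) (p : V → V) (dep : V → ℕ)
    (h : ∀ v, v ≠ r → dep (p v) + 1 = dep v) : (parentGraph r p dep h).Connected := by
  have : Nonempty V := ⟨r⟩
  refine ⟨fun u v => ?_⟩
  obtain ⟨w, -⟩ := walk_root r p dep h _ u le_rfl
  obtain ⟨w', -⟩ := walk_root r p dep h _ v le_rfl
  exact ⟨w.append w'.reverse⟩

lemma dist_le_add {V : Type} (r : V) (p : V → V) (dep : V → ℕ)
    (h : ∀ v, v ≠ r → dep (p v) + 1 = dep v) (u v : V) :
    (parentGraph r p dep h).dist u v ≤ dep u + dep v := by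
  have h1 := (conn r p dep h).dist_triangle (u := u) (v := r) (w := v)
  have h2 := dist_root r p dep h u
  have h3 := dist_root r p dep h v
  rw [SimpleGraph.dist_comm] at h3
  omega

lemma lipschitz {V : Type} (G : SimpleGraph V) (hG : G.Connected) (f : V → ℤ)
    (hf : ∀ a b, G.Adj a b → f a ≤ f b + 1) (u v : V) : f u ≤ f v + G.dist u v := by
  obtain ⟨w, hw⟩ := hG.exists_walk_length_eq_dist u v
  rw [← hw]
  clear hw
  induction w with
  | nil => simp
  | cons hadj w ih =>
    have := hf _ _ hadj
    rw [SimpleGraph.Walk.length_cons]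
    push_cast
    linarith

/-! ### glueing -/

variable {S : Type} (par : S → Option S) (dep : S → ℕ)

/-- the parent function of `m` copies glued at the root -/
def gp (m : ℕ) : Option (Fin m × S) → Option (Fin m × S)
  | none => none
  | some (c, s) => (par s).map (fun t => (c, t))

/-- the depth -/
def gd (m : ℕ) : Option (Fin m × S) → ℕ
  | none => 0
  | some (_, s) => dep s

/-- `dep` is the depth for the parent function `par` -/
def IsDepth : Prop := ∀ s, (par s = none → dep s = 1) ∧ ∀ t, par s = some t → dep s = dep t + 1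

variable {par dep}

lemma gh (hd : IsDepth par dep) (m : ℕ) : ∀ v : Option (Fin m × S), v ≠ none →
    gd dep m (gp par m v) + 1 = gd dep m v := by
  intro v hv
  rcases v with _ | ⟨c, s⟩
  · exact absurd rfl hv
  · rcases hs : par s with _ | t
    · simp only [gp, hs, Option.map_none, gd, (hd s).1 hs]
    · simp only [gp, hs, Option.map_some, gd, (hd s).2 t hs]

/-- `m` copies of the rooted tree glued at the root -/
def glue (hd : IsDepth par dep) (m : ℕ) : SimpleGraph (Option (Fin m × S)) :=
  parentGraph none (gp par m) (gd dep m) (gh hd m)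

/-- the signed depth -/
def sd (dep : S → ℕ) (m : ℕ) (c : Fin m) : Option (Fin m × S) → ℤ
  | none => 0
  | some (c', s) => if c' = c then (dep s : ℤ) else -(dep s : ℤ)

lemma sd_lip (hd : IsDepth par dep) (m : ℕ) (c : Fin m) (a b : Option (Fin m × S))
    (h : (glue hd m).Adj a b) : sd dep m c a ≤ sd dep m c b + 1 := by
  have key : ∀ v : Option (Fin m × S), v ≠ none →
      sd dep m c v ≤ sd dep m c (gp par m v) + 1 ∧ sd dep m c (gp par m v) ≤ sd dep m c v + 1 := by
    intro v hv
    rcases v with _ | ⟨c', s⟩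
    · exact absurd rfl hv
    · rcases hs : par s with _ | t
      · have := (hd s).1 hs
        simp only [gp, hs, Option.map_none, sd]
        split_ifs <;> constructor <;> omega
      · have := (hd s).2 t hs
        simp only [gp, hs, Option.map_some, sd]
        split_ifs <;> constructor <;> omega
  rcases (adj_iff _ _ _ _ a b).1 h with ⟨h1, h2⟩ | ⟨h1, h2⟩
  · have := (key a h1).1
    rwa [h2] at this
  · have := (key b h1).2
    rwa [h2] at this

lemma dist_cross (hd : IsDepth par dep) (m : ℕ) {c c' : Fin m} (hc : c ≠ c') (s s' : S) :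
    (glue hd m).dist (some (c, s)) (some (c', s')) = dep s + dep s' := by
  apply le_antisymm
  · exact dist_le_add none _ _ (gh hd m) (some (c, s)) (some (c', s'))
  · have h1 := lipschitz (glue hd m) (conn _ _ _ _) (sd dep m c) (sd_lip hd m c)
      (some (c, s)) (some (c', s'))
    have e1 : sd dep m c (some (c, s)) = dep s := by simp [sd]
    have e2 : sd dep m c (some (c', s')) = -(dep s' : ℤ) := by simp [sd, hc.symm]
    rw [e1, e2] at h1
    omega

lemma dist_le (hd : IsDepth par dep) (m L : ℕ) (hL : ∀ s, dep s ≤ L)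
    (u v : Option (Fin m × S)) : (glue hd m).dist u v ≤ 2 * L := by
  have h1 := dist_le_add none _ _ (gh hd m) u v
  have h2 : ∀ u : Option (Fin m × S), gd dep m u ≤ L := by
    rintro (_ | ⟨c, s⟩)
    · simp [gd]
    · exact hL s
  have h3 := h2 u
  have h4 := h2 v
  change (parentGraph _ _ _ _).dist u v ≤ 2 * L
  omega

end Pool.Agent.Helper40W.WP
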