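import Mathlib

set_option autoImplicit false

namespace Pool.Agent.Helper40W.WP

theorem exists_root_near (P : Polynomial ℂ) (z : ℂ) (e : ℝ) (he : 0 < e)
    (h : ‖P.eval z‖ < ‖P.leadingCoeff‖ * e ^ P.natDegree) : ∃ w, P.IsRoot w ∧ ‖w - z‖ < e := by
  classical
  by_contra hcon
  push Not at hcon
  have hP : P ≠ 0 := by
    rintro rfl
    simp at h
  have hs : P.Splits := IsAlgClosed.splits P
  have h1 : P.eval z = P.leadingCoeff * (P.roots.map (fun a => z - a)).prod := by
    conv_lhs => rw [hs.eq_prod_roots]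
    rw [Polynomial.eval_mul, Polynomial.eval_C, Polynomial.eval_multiset_prod, Multiset.map_map]
    simp
  have hcard : Multiset.card P.roots = P.natDegree := hs.natDegree_eq_card_roots.symm
  have h2 : ∀ s : Multiset ℂ, (∀ a ∈ s, e ≤ ‖a - z‖) → e ^ Multiset.card s ≤ ‖(s.map (fun a => z - a)).prod‖ := by
    intro s
    induction s using Multiset.induction_on with
    | empty => intro _; simp
    | cons a s ih =>
      intro ha
      rw [Multiset.card_cons, Multiset.map_cons, Multiset.prod_cons, norm_mul, pow_succ, mul_comm]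
      have h3 := ha a (Multiset.mem_cons_self a s)
      rw [norm_sub_rev] at h3
      exact mul_le_mul h3 (ih fun b hb => ha b (Multiset.mem_cons_of_mem hb)) (by positivity) (norm_nonneg _)
  have h3 := h2 P.roots fun a ha => hcon a (Polynomial.isRoot_of_mem_roots ha)
  rw [h1, norm_mul] at h
  rw [hcard] at h3
  exact absurd h (not_lt.mpr (mul_le_mul_of_nonneg_left h3 (norm_nonneg _)))

theorem exists_pow_re_neg (z : ℂ) (hz : z.im ≠ 0) : ∃ K : ℕ, 1 ≤ K ∧ (z ^ K).re < 0 := by
  have hz0 : z ≠ 0 := by rintro rfl; simp at hz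
  have hnorm : 0 < ‖z‖ := norm_pos_iff.mpr hz0
  have hsin : Real.sin z.arg ≠ 0 := by
    intro h
    apply hz
    have := Complex.norm_mul_sin_arg z
    rw [h, mul_zero] at this
    exact this.symm
  have ha0 : 0 < |z.arg| := by
    rw [abs_pos]
    intro h
    rw [h, Real.sin_zero] at hsin
    exact hsin rfl
  have haπ : |z.arg| < Real.pi := by
    rcases (Complex.abs_arg_le_pi z).lt_or_eq with h | h
    · exact h
    · exfalso
      apply hsin
      rcases abs_eq Real.pi_pos.le |>.mp h with h | h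
      · rw [h, Real.sin_pi]
      · rw [h, Real.sin_neg, Real.sin_pi, neg_zero]
  set a := |z.arg| with ha
  refine ⟨⌊Real.pi / (2 * a)⌋₊ + 1, by omega, ?_⟩
  set K := ⌊Real.pi / (2 * a)⌋₊ + 1 with hK
  have h1 : Real.pi / (2 * a) < K := by
    rw [hK]; push_cast; exact Nat.lt_floor_add_one _
  have h2 : (K : ℝ) ≤ Real.pi / (2 * a) + 1 := by
    rw [hK]; push_cast
    have := Nat.floor_le (show 0 ≤ Real.pi / (2 * a) by positivity)
    linarith
  have h3 : Real.pi / 2 < K * a := by
    rw [div_lt_iff₀ (by positivity)] at h1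
    linarith
  have h4 : K * a < Real.pi + Real.pi / 2 := by
    have h5 : K * a ≤ (Real.pi / (2 * a) + 1) * a := mul_le_mul_of_nonneg_right h2 ha0.le
    have h6 : (Real.pi / (2 * a) + 1) * a = Real.pi / 2 + a := by field_simp
    rw [h6] at h5
    linarith
  have h5 : Real.cos (K * a) < 0 := Real.cos_neg_of_pi_div_two_lt_of_lt h3 h4
  have h6 : Real.cos (K * z.arg) = Real.cos (K * a) := by
    rw [← Real.cos_abs (K * z.arg), abs_mul, Nat.abs_cast]
  have h7 : (z ^ K).re = ‖z‖ ^ K * Real.cos (K * z.arg) := by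
    conv_lhs => rw [← Complex.norm_mul_exp_arg_mul_I z]
    rw [mul_pow, ← Complex.exp_nat_mul]
    have e : (K : ℂ) * (z.arg * Complex.I) = ((K * z.arg : ℝ) : ℂ) * Complex.I := by push_cast; ring
    rw [e, ← Complex.ofReal_pow, Complex.re_ofReal_mul, Complex.exp_ofReal_mul_I_re]
  rw [h7, h6]
  exact mul_neg_of_pos_of_neg (by positivity) h5

end Pool.Agent.Helper40W.WP
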