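import Pool.Agent.Helper40W.WP.Count
import Pool.Agent.Helper40W.WP.Root54

set_option autoImplicit false

open Polynomial

namespace Pool.Agent.Helper40W.WP

/-- the levels -/
abbrev Lv (n : ℕ → ℕ) (L : ℕ) : Type := Σ i : Fin L, Fin (n i)

/-- the parent: the vertices of a level are attached to the first vertex of the previous level -/
def lpar (n : ℕ → ℕ) (hn : ∀ i, 0 < n i) (L : ℕ) (s : Lv n L) : Option (Lv n L) :=
  if s.1.1 = 0 then none else some ⟨⟨s.1.1 - 1, by have := s.1.2; omega⟩, ⟨0, hn _⟩⟩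

/-- the depth -/
def ldep (n : ℕ → ℕ) (L : ℕ) (s : Lv n L) : ℕ := s.1.1 + 1

lemma isDepth (n : ℕ → ℕ) (hn : ∀ i, 0 < n i) (L : ℕ) : IsDepth (lpar n hn L) (ldep n L) := by
  intro s
  by_cases h : s.1.1 = 0
  · refine ⟨fun _ => by simp [ldep, h], fun t ht => ?_⟩
    simp [lpar, h] at ht
  · refine ⟨fun hh => by simp [lpar, h] at hh, fun t ht => ?_⟩
    simp only [lpar, h, if_false, Option.some.injEq] at ht
    rw [← ht]
    simp only [ldep]
    omega

lemma sum_dep (n : ℕ → ℕ) (L : ℕ) (z : ℂ) :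
    ∑ s : Lv n L, z ^ ldep n L s = ∑ i ∈ Finset.range L, (n i : ℂ) * z ^ (i + 1) := by
  rw [Fintype.sum_sigma, ← Fin.sum_univ_eq_sum_range (fun i => (n i : ℂ) * z ^ (i + 1))]
  refine Finset.sum_congr rfl fun i _ => ?_
  simp [ldep]

lemma card_last (n : ℕ → ℕ) (L : ℕ) (hL : 1 ≤ L) :
    n (L - 1) ≤ (Finset.univ.filter (fun s : Lv n L => ldep n L s = L)).card := by
  have h1 : (Finset.univ : Finset (Fin (n (L - 1)))).card = n (L - 1) := by simp
  rw [← h1]
  refine Finset.card_le_card_of_injOn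
    (fun j => (⟨⟨L - 1, by omega⟩, j⟩ : Lv n L)) ?_ ?_
  · intro j _
    rw [Finset.mem_coe, Finset.mem_filter]
    refine ⟨Finset.mem_univ _, ?_⟩
    simp only [ldep]
    omega
  · intro j _ j' _ h
    simpa using h

/-- a Wiener root near a point where a positive real polynomial vanishes -/
theorem near_of_coeff (z : ℂ) (L : ℕ) (β : ℕ → ℝ) (hL : 1 ≤ L) (hβ : ∀ i, 0 < β i)
    (h0 : ∑ i ∈ Finset.range L, ((β i : ℝ) : ℂ) * z ^ (i + 1) = 0) (e : ℝ) (he : 0 < e) :
    ∃ (n : ℕ → ℕ) (hn : ∀ i, 0 < n i) (m : ℕ), 2 ≤ m ∧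
      ∃ w, ‖w - z‖ < e ∧ (wp (glue (isDepth n hn L) m)).eval w = 0 := by
  set R : ℝ := max 1 ‖z‖ with hR
  have hR1 : 1 ≤ R := le_max_left _ _
  have hRz : ‖z‖ ≤ R := le_max_right _ _
  have hR0 : 0 < R := by linarith
  set C : ℝ := L * R ^ L with hC
  have heL : 0 < e ^ L := pow_pos he _
  obtain ⟨N, hN⟩ := exists_nat_gt (C / (β (L - 1) * e ^ L))
  have hbe : 0 < β (L - 1) * e ^ L := mul_pos (hβ _) heL
  have hC0 : 0 ≤ C := by positivity
  have hN0 : 0 < (N : ℝ) := lt_of_le_of_lt (div_nonneg hC0 hbe.le) hN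
  have hNC : C < N * β (L - 1) * e ^ L := by
    rw [div_lt_iff₀ hbe] at hN
    linarith
  set n : ℕ → ℕ := fun i => ⌈(N : ℝ) * β i⌉₊ with hn'
  have hn : ∀ i, 0 < n i := fun i => Nat.ceil_pos.2 (mul_pos hN0 (hβ i))
  set T : ℂ := ∑ s : Lv n L, z ^ ldep n L s with hT
  have hTle : ‖T‖ ≤ C := by
    have e1 : T = ∑ i ∈ Finset.range L, (((n i : ℝ) - N * β i : ℝ) : ℂ) * z ^ (i + 1) := by
      have e2 : ∑ i ∈ Finset.range L, (((n i : ℝ) - N * β i : ℝ) : ℂ) * z ^ (i + 1) =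
          ∑ i ∈ Finset.range L, (n i : ℂ) * z ^ (i + 1) -
            N * ∑ i ∈ Finset.range L, ((β i : ℝ) : ℂ) * z ^ (i + 1) := by
        rw [Finset.mul_sum, ← Finset.sum_sub_distrib]
        refine Finset.sum_congr rfl fun i _ => ?_
        push_cast
        ring
      rw [e2, h0, mul_zero, sub_zero, hT, sum_dep]
    rw [e1]
    refine (norm_sum_le _ _).trans ?_
    have e3 : ∀ i ∈ Finset.range L, ‖(((n i : ℝ) - N * β i : ℝ) : ℂ) * z ^ (i + 1)‖ ≤ R ^ L := by
      intro i hi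
      rw [Finset.mem_range] at hi
      rw [norm_mul, norm_pow, Complex.norm_real, Real.norm_eq_abs]
      have h1 : |(n i : ℝ) - N * β i| ≤ 1 := by
        have h2 := Nat.le_ceil ((N : ℝ) * β i)
        have h3 := Nat.ceil_lt_add_one (mul_pos hN0 (hβ i)).le
        rw [abs_le]
        constructor <;> simp only [hn'] <;> linarith
      calc |(n i : ℝ) - N * β i| * ‖z‖ ^ (i + 1) ≤ 1 * R ^ L := by
            refine mul_le_mul h1 ?_ (by positivity) zero_le_one
            exact (pow_le_pow_left₀ (norm_nonneg _) hRz _).trans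
              (pow_le_pow_right₀ hR1 (by omega))
        _ = R ^ L := one_mul _
    refine (Finset.sum_le_card_nsmul _ _ _ e3).trans ?_
    rw [Finset.card_range, nsmul_eq_mul]
  set A : ℕ := (Finset.univ.filter (fun s : Lv n L => ldep n L s = L)).card with hA
  have hAn : n (L - 1) ≤ A := card_last n L hL
  have hAr : (N : ℝ) * β (L - 1) ≤ A := by
    have h1 : (N : ℝ) * β (L - 1) ≤ n (L - 1) := Nat.le_ceil _
    have h2 : (n (L - 1) : ℝ) ≤ A := by exact_mod_cast hAn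
    linarith
  have hTA : ‖T‖ < A * e ^ L := by
    have : N * β (L - 1) * e ^ L ≤ A * e ^ L := mul_le_mul_of_nonneg_right hAr heL.le
    linarith
  set δ : ℝ := (A * e ^ L) ^ 2 - ‖T‖ ^ 2 with hδ
  have hδ0 : 0 < δ := by
    have := pow_lt_pow_left₀ hTA (norm_nonneg _) (two_ne_zero)
    linarith
  set K : ℕ := Fintype.card (Lv n L) with hK
  set C2 : ℝ := ((K * (K + 1) : ℕ) : ℝ) * R ^ (2 * L) with hC2
  have hC20 : 0 ≤ C2 := by positivity
  obtain ⟨m0, hm0⟩ := exists_nat_gt (C2 / δ)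
  have hm0' : C2 < m0 * δ := by
    rwa [div_lt_iff₀ hδ0] at hm0
  set m : ℕ := m0 + 2 with hm
  refine ⟨n, hn, m, by omega, ?_⟩
  set G := glue (isDepth n hn L) m with hG
  have hdepL : ∀ s, ldep n L s ≤ L := fun s => by
    have := s.1.2
    simp only [ldep]; omega
  have hcount := lead_count (isDepth n hn L) m L
  rw [← hA] at hcount
  have hmm : m * m - m = (m0 + 2) * (m0 + 1) := by
    rw [hm, show (m0 + 2) * (m0 + 2) = (m0 + 2) * (m0 + 1) + (m0 + 2) by ring,
      Nat.add_sub_cancel]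
  have hApos : 0 < A := lt_of_lt_of_le (hn _) hAn
  have hcoef := wp_coeff G (2 * L)
  set Q : ℕ := ((Finset.univ : Finset (Option (Fin m × Lv n L))).offDiag.filter
        (fun p => 2 * L = G.dist p.1 p.2)).card with hQ
  have hQpos : 0 < Q := by
    refine lt_of_lt_of_le ?_ hcount
    rw [hmm]; positivity
  have hdeg : (wp G).natDegree = 2 * L := by
    apply le_antisymm (wp_natDegree_le G (2 * L) (dist_le _ m L hdepL))
    apply le_natDegree_of_ne_zero
    rw [hcoef]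
    exact_mod_cast hQpos.ne'
  have hlead : ‖(wp G).leadingCoeff‖ = Q := by
    rw [leadingCoeff, hdeg, hcoef, Complex.norm_natCast]
  have hev := eval_bound (isDepth n hn L) m L hdepL z R hR1 hRz
  rw [← hG, ← hT, ← hK] at hev
  have hfin : ‖(wp G).eval z‖ < ‖(wp G).leadingCoeff‖ * e ^ (wp G).natDegree := by
    rw [hlead, hdeg]
    have h1 : (((m * m - m) * (A * A) : ℕ) : ℝ) ≤ Q := by exact_mod_cast hcount
    have h2 : (((m * m - m) * (A * A) : ℕ) : ℝ) * e ^ (2 * L) ≤ Q * e ^ (2 * L) :=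
      mul_le_mul_of_nonneg_right h1 (by positivity)
    refine lt_of_lt_of_le ?_ h2
    refine lt_of_le_of_lt hev ?_
    have h3 : (((m * m - m) * (A * A) : ℕ) : ℝ) * e ^ (2 * L) =
        ((m * m - m : ℕ) : ℝ) * ((A * e ^ L) ^ 2) := by
      push_cast
      ring
    rw [h3]
    have h4 : ((m * (K * (K + 1)) : ℕ) : ℝ) * R ^ (2 * L) = m * C2 := by
      rw [hC2]; push_cast; ring
    rw [h4, hmm]
    have h5 : (A * e ^ L) ^ 2 = ‖T‖ ^ 2 + δ := by rw [hδ]; ring
    rw [h5, hm]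
    push_cast
    have h6 : ((m0 : ℝ) + 2) * C2 < (m0 + 2) * (m0 + 1) * δ := by
      have : (0 : ℝ) < m0 + 2 := by positivity
      nlinarith [mul_pos this hδ0]
    nlinarith
  obtain ⟨w, hw, hwz⟩ := exists_root_near (wp G) z e he hfin
  exact ⟨w, hwz, hw⟩

end Pool.Agent.Helper40W.WP
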