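import Mathlib

open Polynomial

namespace Pool.Agent.Helper40W.WP

theorem pow_le_prod_norm (s : Multiset ℂ) (z : ℂ) (e : ℝ) (he : 0 < e)
    (h : ∀ a ∈ s, e ≤ ‖z - a‖) : e ^ (Multiset.card s) ≤ ‖(s.map (fun a => z - a)).prod‖ := by
  induction s using Multiset.induction_on with
  | empty => simp
  | cons a s ih =>
    rw [Multiset.card_cons, Multiset.map_cons, Multiset.prod_cons, norm_mul, pow_succ, mul_comm]
    have h1 := ih (fun b hb => h b (Multiset.mem_cons_of_mem hb))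
    have h2 := h a (Multiset.mem_cons_self a s)
    exact mul_le_mul h2 h1 (by positivity) (norm_nonneg _)

theorem exists_root_near (P : Polynomial ℂ) (z : ℂ) (e : ℝ) (he : 0 < e)
    (h : ‖P.eval z‖ < ‖P.leadingCoeff‖ * e ^ P.natDegree) : ∃ w, P.IsRoot w ∧ ‖w - z‖ < e := by
  by_contra hcon
  push Not at hcon
  have hP : P ≠ 0 := by
    rintro rfl
    simp at h
  have hs : P.Splits := IsAlgClosed.splits P
  have hev : P.eval z = P.leadingCoeff * (P.roots.map (fun a => z - a)).prod := by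
    exact hs.eval_eq_prod_roots z
  have hcard : P.natDegree = Multiset.card P.roots := hs.natDegree_eq_card_roots
  rw [hev, norm_mul, hcard] at h
  have h1 := pow_le_prod_norm P.roots z e he (fun a ha => by
    rw [norm_sub_rev]
    exact hcon a ((mem_roots hP).1 ha))
  have h2 : ‖P.leadingCoeff‖ * e ^ Multiset.card P.roots ≤
      ‖P.leadingCoeff‖ * ‖(P.roots.map (fun a => z - a)).prod‖ :=
    mul_le_mul_of_nonneg_left h1 (norm_nonneg _)
  linarith

theorem exists_pow_re_neg (z : ℂ) (hz : z.im ≠ 0) : ∃ K : ℕ, 1 ≤ K ∧ (z ^ K).re < 0 := by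
  have hz0 : z ≠ 0 := by
    rintro rfl
    simp at hz
  have hn : 0 < ‖z‖ := norm_pos_iff.2 hz0
  have harg0 : z.arg ≠ 0 := by
    intro h
    exact hz (Complex.arg_eq_zero_iff.1 h).2
  have hargpi : z.arg ≠ Real.pi := by
    intro h
    exact hz (Complex.arg_eq_pi_iff.1 h).2
  set φ : ℝ := |z.arg| with hφ
  have hφ0 : 0 < φ := abs_pos.2 harg0
  have hφpi : φ < Real.pi := by
    rw [hφ, abs_lt]
    exact ⟨Complex.neg_pi_lt_arg z, lt_of_le_of_ne (Complex.arg_le_pi z) hargpi⟩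
  have hpi := Real.pi_pos
  refine ⟨⌊Real.pi / (2 * φ)⌋₊ + 1, by omega, ?_⟩
  set K : ℕ := ⌊Real.pi / (2 * φ)⌋₊ + 1 with hK
  have h1 : Real.pi / (2 * φ) < (K : ℝ) := by
    rw [hK]; push_cast; exact Nat.lt_floor_add_one _
  have h2 : (K : ℝ) ≤ Real.pi / (2 * φ) + 1 := by
    rw [hK]; push_cast
    have := Nat.floor_le (a := Real.pi / (2 * φ)) (by positivity)
    linarith
  have h3 : Real.pi / 2 < K * φ := by
    rw [div_lt_iff₀ (by positivity)] at h1
    linarith
  have h4 : K * φ < Real.pi + Real.pi / 2 := by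
    have h5 : (K : ℝ) * φ ≤ (Real.pi / (2 * φ) + 1) * φ := mul_le_mul_of_nonneg_right h2 hφ0.le
    have h6 : (Real.pi / (2 * φ) + 1) * φ = Real.pi / 2 + φ := by
      field_simp
    linarith
  have h7 : Real.cos (K * φ) < 0 := Real.cos_neg_of_pi_div_two_lt_of_lt h3 h4
  have h8 : Real.cos (K * z.arg) = Real.cos (K * φ) := by
    rw [← Real.cos_abs (K * z.arg), abs_mul, Nat.abs_cast]
  have h9 : (z ^ K).re = ‖z‖ ^ K * Real.cos (K * z.arg) := by
    conv_lhs => rw [← Complex.norm_mul_exp_arg_mul_I z]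
    rw [mul_pow, ← Complex.exp_nat_mul, ← Complex.ofReal_pow, Complex.re_ofReal_mul]
    congr 1
    have : (K : ℂ) * ((z.arg : ℂ) * Complex.I) = ((K * z.arg : ℝ) : ℂ) * Complex.I := by
      push_cast; ring
    rw [this, Complex.exp_ofReal_mul_I_re]
  rw [h9, h8]
  exact mul_neg_of_pos_of_neg (by positivity) h7

end Pool.Agent.Helper40W.WP
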