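import Mathlib

set_option autoImplicit false

namespace Pool.Agent.Helper40W.WP

theorem parent_isTree {V : Type} [Fintype V] [DecidableEq V] (r : V) (p : V → V) (dep : V → ℕ)
    (h : ∀ v, v ≠ r → dep (p v) + 1 = dep v) (G : SimpleGraph V)
    (hG : ∀ u v, G.Adj u v ↔ (u ≠ r ∧ p u = v) ∨ (v ≠ r ∧ p v = u)) : G.IsTree := by
  classical
  rw [SimpleGraph.isTree_iff_connected_and_card]
  constructor
  · have key : ∀ N : ℕ, ∀ v, dep v < N → G.Reachable r v := by
      intro N
      induction N with
      | zero => intro v hv; exact absurd hv (Nat.not_lt_zero _)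
      | succ N ih =>
        intro v hv
        by_cases hr : v = r
        · subst hr; exact SimpleGraph.Reachable.refl _
        · have h1 := h v hr
          have h2 := ih (p v) (by omega)
          exact h2.trans (SimpleGraph.Adj.reachable ((hG (p v) v).2 (Or.inr ⟨hr, rfl⟩)))
    haveI : Nonempty V := ⟨r⟩
    refine SimpleGraph.Connected.mk ?_
    intro u v
    exact (key (dep u + 1) u (Nat.lt_succ_self _)).symm.trans (key (dep v + 1) v (Nat.lt_succ_self _))
  · let f : {v : V // v ≠ r} → G.edgeSet := fun v =>
      ⟨s(v.1, p v.1), by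
        rw [SimpleGraph.mem_edgeSet, hG]
        exact Or.inl ⟨v.2, rfl⟩⟩
    have hf : Function.Bijective f := by
      constructor
      · rintro ⟨v, hv⟩ ⟨w, hw⟩ hvw
        have h1 : s(v, p v) = s(w, p w) := congrArg Subtype.val hvw
        rw [Sym2.eq_iff] at h1
        rcases h1 with ⟨h2, _⟩ | ⟨h2, h3⟩
        · exact Subtype.ext h2
        · exfalso
          have a := h v hv
          have b := h w hw
          rw [h3] at a
          rw [← h2] at b
          omega
      · rintro ⟨e, he⟩
        induction e using Sym2.ind with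
        | _ u v =>
          rw [SimpleGraph.mem_edgeSet, hG] at he
          rcases he with ⟨h1, h2⟩ | ⟨h1, h2⟩
          · exact ⟨⟨u, h1⟩, Subtype.ext (by show s(u, p u) = s(u, v); rw [h2])⟩
          · exact ⟨⟨v, h1⟩, Subtype.ext (by show s(v, p v) = s(u, v); rw [h2]; exact Sym2.eq_swap)⟩
    rw [← Nat.card_congr (Equiv.ofBijective f hf), Nat.card_eq_fintype_card,
      Nat.card_eq_fintype_card]
    have h1 := Fintype.card_subtype_compl (fun v : V => v = r)
    have h2 : Fintype.card {v : V // v = r} = 1 := Fintype.card_subtype_eq r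
    have h3 : 0 < Fintype.card V := Fintype.card_pos_iff.2 ⟨r⟩
    have h4 : Fintype.card {v : V // v ≠ r} = Fintype.card {v : V // ¬ v = r} := rfl
    rw [h4]
    rw [h1, h2]
    omega

end Pool.Agent.Helper40W.WP
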